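import Pool.Agent.H62.UN.Targets

/-!
# The two quadratic polynomials of the generic fibre (row QIR of unt_modules)
-/

set_option autoImplicit false

namespace Pool.Agent.H2.UNT

open Polynomial Pool.Agent.H17.UN Pool.Agent.H62.UN

theorem no_square {k : Type} [Field k] (Q : k[X]) (hQ : Q.Separable) (hd : Q.natDegree = 2) :
    ∀ (n : ℕ) (a b : k[X]), b ≠ 0 → b.natDegree = n → Q * b ^ 2 = a ^ 2 → False := by
  have hQ0 : Q ≠ 0 := by
    intro h; rw [h] at hd; simp at hd
  have hrad : IsRadical Q := hQ.squarefree.isRadical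
  intro n
  induction n using Nat.strong_induction_on with
  | _ n ih =>
    intro a b hb hn h
    have h1 : Q ∣ a := hrad 2 a ⟨b ^ 2, h.symm⟩
    obtain ⟨c, rfl⟩ := h1
    have h2 : b ^ 2 = Q * c ^ 2 := by
      apply mul_left_cancel₀ hQ0
      rw [h]; ring
    have h3 : Q ∣ b := hrad 2 b ⟨c ^ 2, h2⟩
    obtain ⟨d, rfl⟩ := h3
    have hd0 : d ≠ 0 := right_ne_zero_of_mul hb
    have h4 : Q * d ^ 2 = c ^ 2 := by
      apply mul_left_cancel₀ hQ0
      rw [← h2]; ring
    refine ih d.natDegree ?_ c d hd0 rfl h4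
    rw [natDegree_mul hQ0 hd0, hd] at hn
    omega

theorem pf_QIR : T_QIR := by
  intro k F _ _ _ _ P Q y₀ z₀ s y z τ hT Qs ys zs hQs hys hzs
  have hs : Transcendental k s := by
    have := hT.cb.ind.transcendental 0
    simpa using this
  have hinj : Function.Injective (aeval s : k[X] →ₐ[k] F) := transcendental_iff_injective.mp hs
  have hQ0 : Q ≠ 0 := by
    intro h; have := hT.cb.dQ; rw [h] at this; simp at this
  have hsepQ : Q.Separable := Separable.of_mul_right hT.cb.sep
  have hns : ∀ r : ks k s, r ^ 2 ≠ Qs := by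
    intro r hr
    have h1 : (r : F) ^ 2 = aeval s Q := by
      rw [← hQs, ← hr]; simp
    obtain ⟨a, b, hab⟩ := (IntermediateField.mem_adjoin_simple_iff k (r : F)).mp r.2
    have hQF : aeval s Q ≠ 0 := by
      intro h
      exact hQ0 (hinj (by rw [h, map_zero]))
    have hbF : aeval s b ≠ 0 := by
      intro h
      rw [h, div_zero] at hab
      rw [hab] at h1
      exact hQF (by rw [← h1]; ring)
    have hb : b ≠ 0 := by
      intro h; apply hbF; rw [h, map_zero]
    have h2 : Q * b ^ 2 = a ^ 2 := by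
      apply hinj
      rw [map_mul, map_pow, map_pow, ← h1, hab]
      field_simp
    exact no_square Q hsepQ hT.cb.dQ _ a b hb rfl h2
  have hirr : Irreducible (X ^ 2 - C Qs : (ks k s)[X]) :=
    X_pow_sub_C_irreducible_of_prime Nat.prime_two hns
  refine ⟨hirr, ?_⟩
  rw [hirr.coprime_iff_not_dvd]
  intro hdvd
  have h5 : (X ^ 2 - C Qs : (ks k s)[X]) ∣ C (2 * ys) * X + C (2 * Qs * zs) := by
    have h6 : C (2 * ys) * X + C (2 * Qs * zs) =
        (C zs * X ^ 2 + C (2 * ys) * X + C (Qs * zs)) - C zs * (X ^ 2 - C Qs) := by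
      simp only [C_mul]
      have : (C (2 : ks k s) : (ks k s)[X]) = 2 := rfl
      rw [this]
      ring
    rw [h6]
    exact dvd_sub hdvd (Dvd.intro_left _ rfl)
  have hys0 : ys ≠ 0 := by
    intro h
    apply hT.y0
    apply hinj
    rw [← hys, h, map_zero]
    simp
  have h2ys : (2 * ys : ks k s) ≠ 0 := by
    have : (2 : ks k s) ≠ 0 := by
      have : CharZero (ks k s) := charZero_of_injective_algebraMap (algebraMap k (ks k s)).injective
      exact two_ne_zero
    exact mul_ne_zero this hys0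
  have hne : (C (2 * ys) * X + C (2 * Qs * zs) : (ks k s)[X]) ≠ 0 := by
    intro h
    have := congrArg (fun p => p.coeff 1) h
    simp only [coeff_add, coeff_C_mul, coeff_X_one, mul_one, coeff_zero] at this
    rw [coeff_C_of_ne_zero one_ne_zero, add_zero] at this
    exact h2ys this
  have hdeg : (C (2 * ys) * X + C (2 * Qs * zs) : (ks k s)[X]).natDegree < 2 := by
    have := natDegree_linear_le (a := 2 * ys) (b := 2 * Qs * zs)
    omega
  have hmon : (X ^ 2 - C Qs : (ks k s)[X]).Monic := monic_X_pow_sub_C _ two_ne_zero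
  refine hmon.not_dvd_of_natDegree_lt hne ?_ h5
  rw [natDegree_X_pow_sub_C]
  exact hdeg

end Pool.Agent.H2.UNT
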